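import Pool.Agent.R479.DA.Exact
import Pool.Agent.R331.MT.Three

set_option autoImplicit false

/-!
# Full sets of approximations with a small radical, for affine images

Countable intersections of full open sets (the library `R331/MT`) have positive Hausdorff measure at
the exponent itself; the limsup sets of the approximations with a small radical of affine images of a
point are such intersections.
-/

namespace Pool.Agent.V7H39.VP

open MeasureTheory Filter Topology Set
open Pool.Agent.R331.MT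
open Pool.Agent.R479.DA (Sm ae_approx2)
open scoped ENNReal NNReal

/-- the content of a countable intersection of full open sets (as in `R331/MT/Three`) -/
theorem content1 {s : ℝ} (hs : 0 < s) (hs1 : s ≤ 1) (U : ℕ → Set ℝ) (hopen : ∀ n, IsOpen (U n))
    (hF : ∀ n, Full s (U n)) (A : ℕ → Set ℝ)
    (hA : {x | x ∈ Icc (0:ℝ) 1 ∧ ∀ n, x ∈ U n} ⊆ ⋃ j, A j) :
    ENNReal.ofReal (1/20) ≤ ∑' j, Metric.ediam (A j) ^ s := by
  by_contra hcon
  push Not at hcon
  have hsmall : ∀ j, Metric.ediam (A j) < 1 := by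
    intro j
    by_contra h
    push Not at h
    have h1 : Metric.ediam (A j) ^ s ≤ ∑' j, Metric.ediam (A j) ^ s := ENNReal.le_tsum j
    have h2 : (1:ℝ≥0∞) ≤ Metric.ediam (A j) ^ s := ENNReal.one_le_rpow h hs
    have h3 := (h2.trans h1).trans_lt hcon
    rw [← ENNReal.ofReal_one] at h3
    have := (ENNReal.ofReal_lt_ofReal_iff (by norm_num)).mp h3
    norm_num at this
  have hch := fun j => single hs hs1 (A j) (hsmall j) (show (0:ℝ) < (1/2)^(j+3) by positivity)
  choose n T hT1 hT2 using hch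
  have hW : W s (⋃ j, T j) < 1 := by
    calc W s (⋃ j, T j) ≤ ∑' j, W s (T j) := by
          unfold W
          rw [ENNReal.tsum_comm]
          apply ENNReal.tsum_le_tsum
          intro p
          by_cases hp : p ∈ ⋃ j, T j
          · rw [Set.indicator_of_mem hp]
            obtain ⟨j, hj⟩ := mem_iUnion.mp hp
            refine le_trans (le_of_eq ?_) (ENNReal.le_tsum j)
            rw [Set.indicator_of_mem hj]
          · rw [Set.indicator_of_notMem hp]
            exact zero_le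
      _ ≤ ∑' j, (10 * Metric.ediam (A j) ^ s + ENNReal.ofReal ((1/2)^(j+3))) := ENNReal.tsum_le_tsum hT2
      _ = 10 * ∑' j, Metric.ediam (A j) ^ s + ∑' j : ℕ, ENNReal.ofReal ((1/2)^(j+3)) := by
          rw [ENNReal.tsum_add, ENNReal.tsum_mul_left]
      _ ≤ 10 * ENNReal.ofReal (1/20) + ENNReal.ofReal (1/4) := by
          gcongr
          have hs2 : Summable (fun n : ℕ => ((1:ℝ)/2)^(n+3)) :=
            (summable_nat_add_iff 3).mpr summable_geometric_two
          rw [← ENNReal.ofReal_tsum_of_nonneg (fun n => by positivity) hs2]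
          apply ENNReal.ofReal_le_ofReal
          have e : ∀ n : ℕ, ((1:ℝ)/2)^(n+3) = (1/8) * ((1:ℝ)/2)^n := by
            intro n
            rw [pow_add]
            ring
          simp_rw [e]
          rw [tsum_mul_left, tsum_geometric_two]
          norm_num
      _ = ENNReal.ofReal (3/4) := by
          have : (10:ℝ≥0∞) = ENNReal.ofReal 10 := by norm_num
          rw [this, ← ENNReal.ofReal_mul (by norm_num), ← ENNReal.ofReal_add (by norm_num) (by norm_num)]
          norm_num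
      _ < 1 := by
          rw [← ENNReal.ofReal_one]
          exact (ENNReal.ofReal_lt_ofReal_iff (by norm_num)).mpr (by norm_num)
  obtain ⟨x, hx01, hxU, hxL⟩ := game U hopen hF hW
  obtain ⟨j, hj⟩ := mem_iUnion.mp (hA ⟨hx01, hxU⟩)
  obtain ⟨L, hL1, hL2, hL3, hL4⟩ := hxL (n j + 1)
  set y : ℝ := (L.2:ℝ) / 2^L.1 with hy
  have hyL : y ∈ D L := D_nonempty L
  have hy0 : 0 ≤ y := by positivity
  have hxy : |y - x| < 1 / 2^(n j) := by
    have h1 := hL2.1
    have h2 := hL2.2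
    rw [add_div] at h2
    have h3 : (1:ℝ) / 2^L.1 ≤ 1/2^(n j + 1) := by
      apply one_div_le_one_div_of_le (by positivity)
      exact pow_le_pow_right₀ (by norm_num) hL1
    have h4 : (1:ℝ)/2^(n j + 1) < 1/2^(n j) := by
      apply one_div_lt_one_div_of_lt (by positivity)
      exact pow_lt_pow_right₀ (by norm_num) (by omega)
    rw [abs_lt]
    constructor <;> linarith
  have hmem := hT1 j x hj hx01 y hy0 hxy
  refine hL4 _ (mem_iUnion.mpr ⟨j, hmem⟩) ?_
  exact D_nested hyL (mem_D_idx hy0 _) (by show n j ≤ L.1; omega)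

/-- a countable intersection of full open sets has Hausdorff measure at least `1 / 20` -/
theorem measure_ge {s : ℝ} (hs : 0 < s) (hs1 : s ≤ 1) (U : ℕ → Set ℝ) (hopen : ∀ n, IsOpen (U n))
    (hF : ∀ n, Full s (U n)) (E : Set ℝ) (hE : {x | x ∈ Icc (0:ℝ) 1 ∧ ∀ n, x ∈ U n} ⊆ E) :
    ENNReal.ofReal (1 / 20) ≤ Measure.hausdorffMeasure s E := by
  rw [Measure.hausdorffMeasure_apply]
  refine le_trans ?_ (le_iSup₂ (f := fun (r : ℝ≥0∞) (_ : 0 < r) =>
    ⨅ (t : ℕ → Set ℝ) (_ : E ⊆ ⋃ n, t n) (_ : ∀ n, Metric.ediam (t n) ≤ r),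
      ∑' n, ⨆ _ : (t n).Nonempty, Metric.ediam (t n) ^ s) 1 one_pos)
  refine le_iInf fun A => le_iInf fun hA => le_iInf fun _ => ?_
  have h5 := content1 hs hs1 U hopen hF A (hE.trans hA)
  refine h5.trans (ENNReal.tsum_le_tsum fun n => ?_)
  rcases (A n).eq_empty_or_nonempty with hn | hn
  · rw [hn, Metric.ediam_empty, ENNReal.zero_rpow_of_pos hs]
    exact zero_le
  · exact le_iSup (fun _ : (A n).Nonempty => Metric.ediam (A n) ^ s) hn

theorem full_mono {s : ℝ} {U V : Set ℝ} (h : Full s U) (hUV : U ⊆ V) : Full s V :=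
  fun L hL T hT => h L hL T fun y hy hyU => hT y hy (hUV hyU)

/-- the points `y` such that `a y + r` is close to `m + p / q` with a small radical, for some
`q ≥ n` and integer `m` -/
def UU (B lam τ a r : ℝ) (n : ℕ) : Set ℝ :=
  {y | ∃ q : ℕ, n ≤ q ∧ ∃ (p : ℕ) (m : ℤ), (p, q) ∈ Sm B lam ∧
    |a * y + r - m - (p : ℝ) / q| < (q : ℝ) ^ (-τ)}

theorem UU_open (B lam τ a r : ℝ) (n : ℕ) : IsOpen (UU B lam τ a r n) := by
  have e : UU B lam τ a r n = ⋃ (q : ℕ) (_ : n ≤ q) (p : ℕ) (m : ℤ) (_ : (p, q) ∈ Sm B lam),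
      {y | |a * y + r - m - (p : ℝ) / q| < (q : ℝ) ^ (-τ)} := by
    ext y
    simp only [UU, mem_iUnion, mem_ofPred_eq]
    constructor
    · rintro ⟨q, hq, p, m, h1, h2⟩
      exact ⟨q, hq, p, m, h1, h2⟩
    · rintro ⟨q, hq, p, m, h1, h2⟩
      exact ⟨q, hq, p, m, h1, h2⟩
  rw [e]
  refine isOpen_iUnion fun q => isOpen_iUnion fun _ => isOpen_iUnion fun p => isOpen_iUnion fun m =>
    isOpen_iUnion fun _ => ?_
  exact isOpen_lt (by fun_prop) continuous_const

theorem ae_affine {P : ℝ → Prop} {a r : ℝ} (ha : a ≠ 0) (h : ∀ᵐ x ∂(volume : Measure ℝ), P x) :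
    ∀ᵐ y ∂(volume : Measure ℝ), P (a * y + r) := by
  have h2 : Measure.QuasiMeasurePreserving (fun y : ℝ => a * y) volume volume :=
    Measure.quasiMeasurePreserving_smul (volume : Measure ℝ) ha
  have h3 : Measure.QuasiMeasurePreserving (fun y : ℝ => y + r) volume volume :=
    (measurePreserving_add_right volume r).quasiMeasurePreserving
  exact (h3.comp h2).ae h

theorem countable_int {a r : ℝ} (ha : a ≠ 0) : {y : ℝ | Int.fract (a * y + r) = 0}.Countable := by
  have h1 : {y : ℝ | Int.fract (a * y + r) = 0} ⊆ range fun m : ℤ => ((m : ℝ) - r) / a := by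
    intro y hy
    refine ⟨⌊a * y + r⌋, ?_⟩
    have hy' : Int.fract (a * y + r) = 0 := hy
    have h2 := Int.self_sub_floor (a * y + r)
    simp only
    rw [div_eq_iff ha]
    linarith
  exact (countable_range _).mono h1

/-- **The sets of the approximations with a small radical of an affine image are full.** -/
theorem full_UU {s τ B lam a : ℝ} (r : ℝ) (hs : 0 < s) (hs1 : s < 1) (hτ : 0 < τ) (hB : 0 < B)
    (h3 : lam ≤ 3) (hst : s * τ < lam - 1) (ha : a ≠ 0) (n : ℕ) : Full s (UU B lam τ a r n) := by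
  obtain ⟨lam', h1, h2⟩ := exists_between (show 1 + s * τ < lam by linarith)
  have hsτ : 0 < s * τ := mul_pos hs hτ
  have h4 : 0 < lam' - 1 := by linarith
  obtain ⟨t, ht1, ht2⟩ := exists_between (show s < min 1 ((lam' - 1) / τ) from
    lt_min hs1 (by rw [lt_div_iff₀ hτ]; linarith))
  have ht3 : t < 1 := ht2.trans_le (min_le_left _ _)
  have ht4 : t < (lam' - 1) / τ := ht2.trans_le (min_le_right _ _)
  have ht0 : 0 < t := hs.trans ht1
  have ha0 : 0 < |a| := abs_pos.2 ha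
  have hgap : 0 < (lam' - 1) * (1 / t) - τ := by
    rw [lt_div_iff₀ hτ] at ht4
    rw [sub_pos, mul_one_div, lt_div_iff₀ ht0]
    linarith
  set ρ : ℕ → ℝ := fun q => ((max q 1 : ℕ) : ℝ) ^ (-(lam' - 1)) / |a| with hρ
  set C : ℕ → Set ℝ := fun q => {c | ∃ (p : ℕ) (m : ℤ), (p, q) ∈ Sm B lam ∧
    c = ((p : ℝ) / q + m - r) / a} with hC
  have hρpos : ∀ q, 0 < ρ q := fun q => by
    have : (0 : ℝ) < ((max q 1 : ℕ) : ℝ) := by
      have : 0 < max q 1 := by omega
      exact_mod_cast this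
    simp only [hρ]
    positivity
  have hρ1 : ∀ q : ℕ, 1 ≤ q → ρ q = (q : ℝ) ^ (-(lam' - 1)) / |a| := by
    intro q hq
    simp only [hρ]
    rw [max_eq_left hq]
  have hρ0 : Tendsto ρ atTop (𝓝 0) := by
    have h5 : Tendsto (fun q : ℕ => (q : ℝ) ^ (-(lam' - 1)) / |a|) atTop (𝓝 0) := by
      have h6 := ((tendsto_rpow_neg_atTop h4).comp tendsto_natCast_atTop_atTop).div_const |a|
      rw [zero_div] at h6
      exact h6
    refine h5.congr' ?_
    filter_upwards [eventually_ge_atTop 1] with q hq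
    exact (hρ1 q hq).symm
  have hSpos : ∀ p q : ℕ, (p, q) ∈ Sm B lam → 1 ≤ q := by
    rintro p q ⟨h5, h6, -⟩
    simp only at h5 h6
    omega
  have habs : ∀ (y c0 : ℝ), |y - (c0 - r) / a| = |a * y + r - c0| / |a| := by
    intro y c0
    rw [← abs_div]
    congr 1
    field_simp
    ring
  have hfull : ∀ᵐ x ∂(volume : Measure ℝ), x ∈ Ioo 0 1 → ∃ᶠ k in atTop, ∃ c ∈ C k, |x - c| < ρ k := by
    have h5 := ae_approx2 (by linarith : 1 < lam') h2 h3 hB
    have h6 : ∀ᵐ y ∂(volume : Measure ℝ), ∀ m : ℤ, (a * y + (r - m)) ∈ Ioo (0 : ℝ) 1 →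
        ∃ᶠ q : ℕ in atTop, ∃ p : ℕ, (p, q) ∈ Sm B lam ∧
          |(a * y + (r - m)) - (p : ℝ) / q| < (q : ℝ) ^ (-(lam' - 1)) := by
      rw [ae_all_iff]
      intro m
      exact ae_affine (P := fun x => x ∈ Ioo (0 : ℝ) 1 → ∃ᶠ q : ℕ in atTop, ∃ p : ℕ, (p, q) ∈ Sm B lam ∧
        |x - (p : ℝ) / q| < (q : ℝ) ^ (-(lam' - 1))) ha h5
    have h7 : ∀ᵐ y ∂(volume : Measure ℝ), Int.fract (a * y + r) ≠ 0 := by
      have := (countable_int (r := r) ha).measure_zero (volume : Measure ℝ)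
      rw [measure_eq_zero_iff_ae_notMem] at this
      filter_upwards [this] with y hy h8
      exact hy h8
    filter_upwards [h6, h7] with y hy hy0 _
    have h8 : a * y + (r - (⌊a * y + r⌋ : ℤ)) = Int.fract (a * y + r) := by
      rw [← Int.self_sub_floor]
      ring
    have h9 := hy ⌊a * y + r⌋ (by
      rw [h8]
      exact ⟨lt_of_le_of_ne (Int.fract_nonneg _) hy0.symm, Int.fract_lt_one _⟩)
    refine h9.mono ?_
    rintro q ⟨p, hp, hd⟩
    refine ⟨((p : ℝ) / q + (⌊a * y + r⌋ : ℤ) - r) / a, ⟨p, _, hp, rfl⟩, ?_⟩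
    rw [habs, hρ1 q (hSpos p q hp)]
    apply div_lt_div_of_pos_right _ ha0
    have h10 : a * y + r - ((p : ℝ) / q + (⌊a * y + r⌋ : ℤ)) =
        (a * y + (r - (⌊a * y + r⌋ : ℤ))) - (p : ℝ) / q := by ring
    rw [h10]
    exact hd
  -- the constants are absorbed for large `q`
  have hbig : ∀ᶠ q : ℕ in atTop, |a| * (1 / |a|) ^ (1 / t) ≤ (q : ℝ) ^ ((lam' - 1) * (1 / t) - τ) := by
    have h5 : Tendsto (fun q : ℕ => (q : ℝ) ^ ((lam' - 1) * (1 / t) - τ)) atTop atTop :=
      (tendsto_rpow_atTop hgap).comp tendsto_natCast_atTop_atTop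
    exact h5.eventually_ge_atTop _
  obtain ⟨n0, hn0⟩ := eventually_atTop.1 hbig
  refine full_mono (full_of_ae hs ht1 ht3.le C ρ hρpos hρ0 hfull (max n n0)) ?_
  rintro y ⟨q, hq, c, ⟨p, m, hp, rfl⟩, hd⟩
  refine ⟨q, (le_max_left _ _).trans hq, p, m, hp, ?_⟩
  have hq1 := hSpos p q hp
  have hq0 : (0 : ℝ) < q := by exact_mod_cast hq1
  rw [habs, hρ1 q hq1, div_lt_iff₀ ha0] at hd
  have h5 : a * y + r - m - (p : ℝ) / q = a * y + r - ((p : ℝ) / q + m) := by ring
  rw [h5]
  refine hd.trans_le ?_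
  have h6 := hn0 q ((le_max_right _ _).trans hq)
  have h7 : ((q : ℝ) ^ (-(lam' - 1)) / |a|) ^ (1 / t) * |a| =
      (|a| * (1 / |a|) ^ (1 / t)) * (q : ℝ) ^ (-((lam' - 1) * (1 / t))) := by
    rw [div_eq_mul_one_div ((q : ℝ) ^ (-(lam' - 1))), Real.mul_rpow (by positivity) (by positivity),
      ← Real.rpow_mul hq0.le, show -(lam' - 1) * (1 / t) = -((lam' - 1) * (1 / t)) by ring]
    ring
  rw [h7]
  calc |a| * (1 / |a|) ^ (1 / t) * (q : ℝ) ^ (-((lam' - 1) * (1 / t)))
      ≤ (q : ℝ) ^ ((lam' - 1) * (1 / t) - τ) * (q : ℝ) ^ (-((lam' - 1) * (1 / t))) := by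
        gcongr
    _ = (q : ℝ) ^ (-τ) := by
        rw [← Real.rpow_add hq0]
        congr 1
        ring

end Pool.Agent.V7H39.VP
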