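import Pool.Agent.V7H39.VP.Full

set_option autoImplicit false

/-!
# Positive Hausdorff measure of the points with full profiles
-/

namespace Pool.Agent.V7H39.VP

open MeasureTheory Filter Topology Set
open Pool.Agent.R331.MT
open Pool.Agent.R479.DA (Sm WW mem_WW_of_frequently)
open scoped ENNReal NNReal

/-- approximations of `x` modulo one are approximations of the fractional part -/
theorem mem_WW_fract {B lam τ x : ℝ} (hτ : 0 < τ) (h0 : Int.fract x ≠ 0)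
    (h : ∀ n : ℕ, ∃ q : ℕ, n ≤ q ∧ ∃ (p : ℕ) (m : ℤ), (p, q) ∈ Sm B lam ∧
      |x - m - (p : ℝ) / q| < (q : ℝ) ^ (-τ)) : Int.fract x ∈ WW B lam τ := by
  set y := Int.fract x with hy
  have hy0 : 0 < y := lt_of_le_of_ne (Int.fract_nonneg _) h0.symm
  have hy1 : y < 1 := Int.fract_lt_one _
  have hx : x = y + ⌊x⌋ := by
    rw [hy, ← Int.self_sub_floor]
    ring
  have hsmall : ∀ᶠ q : ℕ in atTop, (q : ℝ) ^ (-τ) < min y (1 - y) := by
    have h5 : Tendsto (fun q : ℕ => (q : ℝ) ^ (-τ)) atTop (𝓝 0) :=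
      (tendsto_rpow_neg_atTop hτ).comp tendsto_natCast_atTop_atTop
    exact (tendsto_order.1 h5).2 _ (lt_min hy0 (by linarith))
  obtain ⟨n0, hn0⟩ := eventually_atTop.1 hsmall
  apply mem_WW_of_frequently
  rw [frequently_atTop]
  intro n
  obtain ⟨q, hq, p, m, hp, hd⟩ := h (max n n0)
  refine ⟨q, (le_max_left _ _).trans hq, p, hp, ?_⟩
  have h1 := hn0 q ((le_max_right _ _).trans hq)
  have h2 : (q : ℝ) ^ (-τ) < y := h1.trans_le (min_le_left _ _)
  have h3 : (q : ℝ) ^ (-τ) < 1 - y := h1.trans_le (min_le_right _ _)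
  obtain ⟨h4, h5, -⟩ := hp
  simp only at h4 h5
  have hq0 : (0 : ℝ) < q := by
    have : 0 < q := by omega
    exact_mod_cast this
  have h6 : (p : ℝ) / q < 1 := by
    rw [div_lt_one hq0]
    exact_mod_cast h5
  have h7 : (0 : ℝ) < (p : ℝ) / q := by
    apply div_pos _ hq0
    exact_mod_cast h4
  rw [abs_lt] at hd
  have hm : m = ⌊x⌋ := by
    by_contra hne
    rcases lt_or_gt_of_ne hne with h8 | h8
    · have h9 : (m : ℝ) + 1 ≤ (⌊x⌋ : ℤ) := by exact_mod_cast h8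
      linarith [hd.2]
    · have h9 : ((⌊x⌋ : ℤ) : ℝ) + 1 ≤ m := by exact_mod_cast h8
      linarith [hd.1]
  have h10 : y - (p : ℝ) / q = x - m - (p : ℝ) / q := by
    rw [hm]
    linarith
  rw [h10, abs_le]
  exact ⟨hd.1.le, hd.2.le⟩

theorem measure_countable {s : ℝ} (hs : 0 < s) {Z : Set ℝ} (hZ : Z.Countable) :
    Measure.hausdorffMeasure s Z = 0 := by
  have := Measure.nullSingletonClass_hausdorff ℝ hs
  exact hZ.measure_zero _

/-- the affine preimage modulo one of a set of small dimension is a null set -/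
theorem null_set {s : ℝ} (hs : 0 < s) {a : ℝ} (ha : a ≠ 0) (r : ℝ) {E : Set ℝ}
    (hE : dimH E < ENNReal.ofReal s) :
    Measure.hausdorffMeasure s {ξ : ℝ | Int.fract (a * ξ + r) ∈ E} = 0 := by
  have h1 : {ξ : ℝ | Int.fract (a * ξ + r) ∈ E} ⊆
      ⋃ m : ℤ, (fun y : ℝ => (y + (m - r)) / a) '' E := by
    intro ξ hξ
    rw [mem_iUnion]
    refine ⟨⌊a * ξ + r⌋, Int.fract (a * ξ + r), hξ, ?_⟩
    simp only
    rw [div_eq_iff ha, ← Int.self_sub_floor]
    ring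
  refine measure_mono_null h1 (measure_iUnion_null fun m => ?_)
  have h2 : LipschitzWith (Real.toNNReal (1 / |a|)) (fun y : ℝ => (y + (m - r)) / a) := by
    apply LipschitzWith.of_dist_le_mul
    intro x y
    rw [Real.dist_eq, Real.dist_eq, Real.coe_toNNReal _ (by positivity), ← sub_div, abs_div]
    rw [show x + (m - r) - (y + (m - r)) = x - y by ring]
    exact le_of_eq (by ring)
  have h3 : dimH ((fun y : ℝ => (y + (m - r)) / a) '' E) < (Real.toNNReal s : ℝ≥0∞) :=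
    (h2.dimH_image_le E).trans_lt hE
  have h4 := hausdorffMeasure_of_dimH_lt h3
  rwa [Real.coe_toNNReal _ hs.le] at h4

/-- **Positive measure.** -/
theorem pos {s : ℝ} (hs : 0 < s) (hs1 : s < 1) (a r : ℕ → ℝ) (ha : ∀ i, a i ≠ 0) (N : Set ℝ)
    (hN : Measure.hausdorffMeasure s N = 0) :
    0 < Measure.hausdorffMeasure s {ξ : ℝ | ξ ∈ Icc (0 : ℝ) 1 ∧ ξ ∉ N ∧
      ∀ i, Int.fract (a i * ξ + r i) ∈ Ioo (0 : ℝ) 1 ∧
        ∀ (k : ℕ) (lam τ : ℚ), (lam : ℝ) ≤ 3 → (0 : ℝ) < τ → s * τ < lam - 1 →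
          Int.fract (a i * ξ + r i) ∈ WW (1 / ((k : ℝ) + 1)) lam τ} := by
  classical
  set V : ℕ × ℕ × ℚ × ℚ × ℕ → Set ℝ := fun j =>
    if ((j.2.2.1 : ℝ) ≤ 3 ∧ (0 : ℝ) < j.2.2.2.1 ∧ s * j.2.2.2.1 < j.2.2.1 - 1)
    then UU (1 / ((j.2.1 : ℝ) + 1)) j.2.2.1 j.2.2.2.1 (a j.1) (r j.1) j.2.2.2.2 else univ with hV
  have hopen : ∀ j, IsOpen (V j) := by
    intro j
    simp only [hV]
    split_ifs
    · exact UU_open _ _ _ _ _ _
    · exact isOpen_univ
  have hFull : ∀ j, Full s (V j) := by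
    intro j
    simp only [hV]
    split_ifs with h
    · exact full_UU _ hs hs1 h.2.1 (by positivity) h.1 h.2.2 (ha _) _
    · exact full_mono (full_UU (a := a 0) (r 0) hs hs1 one_pos one_pos le_rfl (by linarith) (ha 0) 0)
        (subset_univ _)
  obtain ⟨f, hf⟩ := exists_surjective_nat (ℕ × ℕ × ℚ × ℚ × ℕ)
  set E : Set ℝ := {x | x ∈ Icc (0:ℝ) 1 ∧ ∀ n, x ∈ V (f n)} with hE
  have h1 := measure_ge hs hs1.le (fun n => V (f n)) (fun n => hopen _) (fun n => hFull _) E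
    (subset_refl _)
  set Z : Set ℝ := ⋃ i, {y : ℝ | Int.fract (a i * y + r i) = 0} with hZ
  have hZ0 : Measure.hausdorffMeasure s Z = 0 :=
    measure_countable hs (countable_iUnion fun i => countable_int (ha i))
  have h2 : Measure.hausdorffMeasure s (E \ (N ∪ Z)) = Measure.hausdorffMeasure s E :=
    measure_sdiff_null (measure_union_null hN hZ0)
  have h3 : (0 : ℝ≥0∞) < ENNReal.ofReal (1 / 20) := by
    rw [ENNReal.ofReal_pos]
    norm_num
  refine lt_of_lt_of_le (h3.trans_le (h1.trans h2.ge)) (measure_mono ?_)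
  rintro x ⟨⟨hx01, hx⟩, hxN⟩
  rw [mem_union, not_or] at hxN
  refine ⟨hx01, hxN.1, fun i => ?_⟩
  have h4 : Int.fract (a i * x + r i) ≠ 0 := by
    intro h5
    exact hxN.2 (mem_iUnion.2 ⟨i, h5⟩)
  refine ⟨⟨lt_of_le_of_ne (Int.fract_nonneg _) h4.symm, Int.fract_lt_one _⟩, ?_⟩
  intro k lam τ h5 h6 h7
  refine mem_WW_fract h6 h4 fun n => ?_
  obtain ⟨l, hl⟩ := hf (i, k, lam, τ, n)
  have h8 := hx l
  rw [hl] at h8
  simp only [hV] at h8
  rw [if_pos ⟨h5, h6, h7⟩] at h8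
  exact h8

end Pool.Agent.V7H39.VP
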